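import Pool.Agent.LSG.StmtsE

/-!
# Squad NPG (MP_005a41_gt): metrizable groups which are not precompact, and groups with a closed line

THEOREM A.  EVERY metrizable topological group `H` which is not precompact is l-equivalent to `H × ℕ`, and l-stable.
THEOREM B.  Every metrizable topological group with a closed subgroup topologically isomorphic to `ℝ` is l-stable and S-stable.

Rows used from the landed squad LSG (theorems, as hypotheses of the type of the statement): STO, CTK (StmtsD), PEL, CPE, CEX, BRI, DUG (StmtsA),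
RXS (StmtsC).

RULES.  One file per row: `Pool/Agent/HelperNN_NPG/XXX.lean`, import `Pool.Agent.NPG.Stmts`, namespace `Pool.Agent.NPG.HNN`, theorem
`xxx (the rows used, as hypotheses, in the order of the docstring) : XxxStmt`.
-/

set_option autoImplicit false

open MeasureTheory Set Topology
open scoped BigOperators Pointwise

namespace Pool.Agent.NPG

open Pool.Agent.LSG

/-- the continuous real functions on `D` which vanish on `Z`, as a subspace of the product `D → ℝ` (pointwise convergence) -/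
def Rv (D : Type) [TopologicalSpace D] (Z : Set D) : Submodule ℝ (D → ℝ) where
  carrier := {f | Continuous f ∧ ∀ x ∈ Z, f x = 0}
  add_mem' := by
    intro f g hf hg
    refine ⟨Continuous.add hf.1 hg.1, fun x hx => ?_⟩
    rw [Pi.add_apply, hf.2 x hx, hg.2 x hx, add_zero]
  zero_mem' := ⟨continuous_const, fun _ _ => rfl⟩
  smul_mem' := by
    intro c f hf
    refine ⟨Continuous.const_smul hf.1 c, fun x hx => ?_⟩
    rw [Pi.smul_apply, hf.2 x hx, smul_zero]

/-- the part of `D n` which is covered by the earlier sets, as a subset of `D n` -/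
def Ear {X : Type} (D : ℕ → Set X) (n : ℕ) : Set (D n) := {x | ∃ m < n, x.1 ∈ D m}

/-- **SLR** (medium; copy of SLO, Helper77_LSG/SLO.lean, for functions which vanish on `Z`).  The slots lemma, relative.
PROOF. As SLO: `i F h' = ∑ᶠ p : ℕ × B, a p (τ_p⁻¹ h') * F p.1 (τ_p⁻¹ h')` and `p g n h = ∑ᶠ b, a n b h * g (τ n b h)`; `exists_op` of Helper77_LSG/SLO.lean gives continuous linear maps into `Cp D`; if `h' ∈ Z` then
`τ_p⁻¹ h' ∈ Z`, so every summand of `i F h'` is 0, and `h ∈ Z` gives `τ n b h ∈ Z`, so `p g n h = 0`: they go into `Rv D Z` (`codRestrict`-like).  `p (i F) = F` as in SLO. -/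
def SlrStmt : Prop := ∀ (D B : Type) [TopologicalSpace D] (Z : Set D) (a : ℕ → B → C(D, ℝ))
  (τ : ℕ → B → D ≃ₜ D), (∀ n b x, τ n b x ∈ Z ↔ x ∈ Z) →
  (∀ n, LocallyFinite fun b => Function.support (a n b)) →
  LocallyFinite (fun p : ℕ × B => (τ p.1 p.2) '' Function.support (a p.1 p.2)) →
  (∀ n h, ∑ᶠ b, (a n b h) ^ 2 = 1) →
  (∀ n b n' b' h h', a n b h ≠ 0 → a n' b' h' ≠ 0 → τ n b h = τ n' b' h' → n = n' ∧ b = b') →
  Compl (ℕ → ↥(Rv D Z)) ↥(Rv D Z)

/-- **QML** (medium-strong).  Coset spaces of metrizable groups by closed subgroups are metrizable.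
PROOF. Let `Q = H ⧸ L` (left cosets `h L`), `H` acts on the left on `Q` (continuous action, the projection `π` is open).  For a neighbourhood `V` of 1 let `R_V = {(q, q') | ∃ v ∈ V, v • q = q'}`.  These sets are a basis of a
uniformity on `Q`: reflexive (`1 ∈ V`), the inverse of `R_V` is `R_(V⁻¹)`, `R_V ○ R_V ⊆ R_(V V)`; it is countably generated (`nhds 1` is, `H` is first countable); its neighbourhoods of `q = π h` are the sets `V • q`, which are the
neighbourhoods of `q` in `Q` (`π` is continuous and open, and `V • π h = π (V h)`, right translation by `h` is a homeomorphism of `H`): so it gives the topology of `Q`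
(`UniformSpace.ofNhdsEqComap` / `UniformSpace.Core`, `replaceTopology`).  `Q` is T1 since `L` is closed (Mathlib has the instance for closed subgroups, or: the preimage of `{π h}` is `h L`).
`UniformSpace.metrizableSpace`.  OTHER WAY: the uniformity is the image `Filter.map (Prod.map π π)` of the uniformity `{(x, y) | y * x⁻¹ ∈ V}`. -/
def QmlStmt : Prop := ∀ (H : Type) [Group H] [TopologicalSpace H] [IsTopologicalGroup H]
  [TopologicalSpace.MetrizableSpace H] (L : Subgroup H), IsClosed (L : Set H) →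
  TopologicalSpace.MetrizableSpace (H ⧸ L)

/-- **DSQ** (easy-medium).  A uniformly discrete sequence.
PROOF. Shrink `U` to an open symmetric neighbourhood `U₁ ⊆ U` of 1; no finite `F` with `F U₁ = H`, so (inverses) for every finite `F` there is `h` with `h ∉ U₁ g` for all `g ∈ F`: otherwise
every `h⁻¹` is in some `U₁ g`, `h ∈ g⁻¹ U₁⁻¹ = g⁻¹ U₁`, and `F⁻¹` would do.  `V` open symmetric neighbourhood of 1 with `V V V V ⊆ U₁`.  Choose `d n` by recursion with `d n ∉ U₁ (d r)` for `r < n`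
(`exists_seq_of_forall_finset_exists` or strong recursion): `d s (d r)⁻¹ ∉ U₁` for `r < s`, and for `s < r` because `U₁` is symmetric. -/
def DsqStmt : Prop := ∀ (H : Type) [Group H] [TopologicalSpace H] [IsTopologicalGroup H],
  (∃ U ∈ nhds (1 : H), ∀ F : Finset H, (⋃ g ∈ F, g • U) ≠ Set.univ) →
  ∃ (V : Set H) (d : ℕ → H), IsOpen V ∧ (1 : H) ∈ V ∧ (∀ x ∈ V, x⁻¹ ∈ V) ∧
    ∀ s r, s ≠ r → d s * (d r)⁻¹ ∉ V * V * V * V

/-- **LSE** (easy).  A closed separable subgroup.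
PROOF. `L = (Subgroup.closure (range d)).topologicalClosure`.  `Subgroup.closure (range d)` is countable (`Subgroup.closure` of a countable set; see the proof of ABC, Helper62_LSG/ABC.lean, for the additive version) and
dense in `L`; `l` enumerates it: every `z ∈ L` and every open neighbourhood `W` of 1 have some `j` with `z * (l j)⁻¹ ∈ W` (the set `{y | z * y⁻¹ ∈ W}` is a neighbourhood of `z`, and `z` is in the closure). -/
def LseStmt : Prop := ∀ (H : Type) [Group H] [TopologicalSpace H] [IsTopologicalGroup H] (d : ℕ → H),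
  ∃ (L : Subgroup H) (l : ℕ → H), IsClosed (L : Set H) ∧ (∀ s, d s ∈ L) ∧ (∀ j, l j ∈ L) ∧
    ∀ z ∈ L, ∀ W ∈ nhds (1 : H), ∃ j, z * (l j)⁻¹ ∈ W

/-- **COV** (medium-strong; uses STO).  A locally finite closed cover with locally constant centres.
PROOF. `ψ` from STO (Pool/Agent/LSG/StmtsD.lean).  `s c q = ∑ᶠ i, ψ c i q` (at most one summand is not 0; continuous: `continuous_finsum`, the supports of `ψ c i` are locally finite), `s c ≥ 0`; every point has a
neighbourhood on which all but finitely many `s c` vanish, and at every point some `s c` is positive.  `D c = {q | ∀ c', s c' q ≤ s c q}`: closed (intersection of closed sets); a cover: take `c` with `s c q` maximal (finitely many are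
not 0).  On `D c` `s c > 0`; so `D` is locally finite and `ξ c q` = the unique `i` with `ψ c i q ≠ 0` (if there is one; otherwise anything: if `Q` is nonempty then `I` is; if `Q` is empty there is nothing to do) satisfies
`q ∈ U (ξ c q)`, and `ξ c q' = ξ c q` for all `q'` with `ψ c (ξ c q) q' ≠ 0`, a neighbourhood of `q`. -/
def CovStmt : Prop := ∀ (Q I : Type) [TopologicalSpace Q] [TopologicalSpace.MetrizableSpace Q]
  (U : I → Set Q), (∀ i, IsOpen (U i)) → (∀ q, ∃ i, q ∈ U i) →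
  ∃ (D : ℕ → Set Q) (ξ : ℕ → Q → I), (∀ c, IsClosed (D c)) ∧ LocallyFinite D ∧
    (∀ q, ∃ c, q ∈ D c) ∧ (∀ c, ∀ q ∈ D c, q ∈ U (ξ c q)) ∧
    ∀ c, ∀ q ∈ D c, ∀ᶠ q' in nhds q, q' ∈ D c → ξ c q' = ξ c q

/-- **SCN** (medium; uses QML, COV).  The same on the group, invariant under `L`.
PROOF. `Q = H ⧸ L` is metrizable (QML), `π : H → Q`.  `U x = π '' {x * v | v ∈ V₀}`, `x : H` (`I = H`), is open (`π` is open) and `π x ∈ U x`.  `D'`, `ξ'` from COV; `D c = π ⁻¹' D' c`, `ξ c x = ξ' c (π x)`.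
`π (x * z) = π x` for `z ∈ L`.  `LocallyFinite.preimage_continuous`.  If `π x = π (ξ v)`, then `(ξ v)⁻¹ x ∈ L`, `x = ξ v z`. -/
def ScnStmt : Prop := ∀ (H : Type) [Group H] [TopologicalSpace H] [IsTopologicalGroup H]
  [TopologicalSpace.MetrizableSpace H] (L : Subgroup H) (V₀ : Set H), IsClosed (L : Set H) →
  IsOpen V₀ → (1 : H) ∈ V₀ →
  ∃ (D : ℕ → Set H) (ξ : ℕ → H → H), (∀ c, IsClosed (D c)) ∧ LocallyFinite D ∧
    (∀ x, ∃ c, x ∈ D c) ∧
    (∀ c x z, z ∈ L → ((x * z ∈ D c ↔ x ∈ D c) ∧ ξ c (x * z) = ξ c x)) ∧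
    (∀ c, ∀ x ∈ D c, ∃ w ∈ V₀, ∃ z ∈ L, x = ξ c x * w * z) ∧
    ∀ c, ∀ x ∈ D c, ∀ᶠ y in nhds x, y ∈ D c → ξ c y = ξ c x

/-- **JEX** (medium; uses DUG).  Extension from a closed set, zero on another one.
PROOF. `P = A ∪ D` is closed.  `k g : P → ℝ`, `k g x = g x` if `x ∈ D`, 0 otherwise (on `A ∩ D` `g` vanishes): continuous on the closed pieces `A`, `D` of `P` (`IsClosed` gluing, e.g. `continuous_if`-like or
`ContinuousOn.union_of_isClosed` / `LocallyFinite.continuous` for the cover of `P` by two closed sets), linear, every value depends on one value of `g`: a continuous linear map `Rv D _ → Cp P`; compose with the extension operator of DUG for `P`. -/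
def JexStmt : Prop := ∀ (X : Type) [TopologicalSpace X] [TopologicalSpace.MetrizableSpace X]
  (A D : Set X), IsClosed A → IsClosed D →
  ∃ j : ↥(Rv D {x : D | x.1 ∈ A}) →L[ℝ] ↥(Cp X), ∀ g : ↥(Rv D {x : D | x.1 ∈ A}),
    (∀ x : D, (j g).1 x.1 = g.1 x) ∧ ∀ x ∈ A, (j g).1 x = 0

/-- **DEC** (strong; uses DUG, JEX).  Decomposition along a locally finite closed cover.
PROOF. `A n = ⋃ m < n, D m` is closed.  DUG: `e n : Cp (A n) →L Cp X`, an extension operator; `E n f = e n (f|A n)`, a continuous linear map `Cp X → Cp X` with `E n f = f` on `A n`, and `E n f` depends only on `f|A n`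
(so `f = f'` on `A n` implies `E n f = E n f'`).  JEX for `A n`, `D n`: `j n`.  `Φ f n = (f - E n f)|D n`, it vanishes on `D n ∩ A n`, i.e. on `Ear D n`.  For `g` define by recursion `F 0 = 0`, `F (n+1) = E n (F n) + j n (g n)` in
`Cp X` (continuous linear in `g`; use `Nat.rec` in `(∀ n, Rv ..) →L Cp X`).  `F (n+1) = F n` on `A n` (`E n (F n) = F n` and `j n (g n) = 0` there).  So on `D m` all `F k`, `k > m`, agree: `Ψ g x = F (m+1) x` for `x ∈ D m`.
`Ψ g` is continuous: a neighbourhood `W` of `x` meets only finitely many `D m`, so `W ⊆ A N`, and `Ψ g = F N` on `W`.  `Ψ` is linear and continuous (`Ψ g x = F (m+1) x` for one `m` with `x ∈ D m`, chosen by `x`).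
`Φ (Ψ g) n`: `Ψ g = F n` on `A n`, so `E n (Ψ g) = E n (F n)`, and on `D n` `Ψ g - E n (F n) = F (n+1) - E n (F n) = j n (g n) = g n`.
`Ψ (Φ f) = f`: by induction `F n = f` on `A n`: on `A n` clear, on `D n` `F (n+1) = E n (F n) + Φ f n = E n f + (f - E n f) = f`. -/
def DecStmt : Prop := ∀ (X : Type) [TopologicalSpace X] [TopologicalSpace.MetrizableSpace X]
  (D : ℕ → Set X), (∀ n, IsClosed (D n)) → LocallyFinite D → (∀ x, ∃ n, x ∈ D n) →
  Nonempty (↥(Cp X) ≃L[ℝ] (∀ n, ↥(Rv (D n) (Ear D n))))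

/-- **ONE** (strong; uses SLR, CTK).  One set with one locally constant centre.
PROOF. `ε : H → ℝ` continuous, `≥ 0`, `ε x ≠ 0 ↔ x ∈ V` (metrizable: `infDist x Vᶜ`, or 1 if `V = univ`).  On the space `D` (subtype) `φ j h = ε ((ξ h)⁻¹ * h * (l j)⁻¹)` is continuous (`ξ` is locally constant on `D`), `≥ 0`.  For
`h ∈ D` write `h = ξ h * w * z`; there is `j` with `z * (l j)⁻¹ ∈ V₀`, so `(ξ h)⁻¹ * h * (l j)⁻¹ = w * (z * (l j)⁻¹) ∈ V₀ V₀ ⊆ V` and `φ j h ≠ 0`.  CTK for the space `D`: `χ m`, locally finite, `∑ (χ m)^2 = 1`, `χ m h ≠ 0 → φ m h ≠ 0`.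
`a n m = χ m`, `B = ℕ`, `τ n m h = h * ((l m)⁻¹ * d s)`, `s = Nat.pair n m` (a homeomorphism of `D`: `D` is invariant under right multiplication by `L`).  Hypotheses of SLR for `Z' = {x : D | x.1 ∈ Z}`: `τ` keeps `Z`.
(3) Injectivity: `h * (l m)⁻¹ * d s = h' * (l m')⁻¹ * d s' = y`, `χ m h ≠ 0`, `χ m' h' ≠ 0`: `h`, `h'`, `y` differ by elements of `L`, so `ξ h = ξ h' = x`; `v = x⁻¹ * h * (l m)⁻¹ ∈ V`, `v'` similar, `x * v * d s = x * v' * d s'`, so
`d s' * (d s)⁻¹ = v'⁻¹ * v ∈ V V`, hence `s = s'`.  (2) The landing sets are locally finite: let `y₀ ∈ D`, `x = ξ y₀`, `W` = the `y ∈ D` near `y₀` with `ξ y = x` and `x⁻¹ * y * y₀⁻¹ * x ∈ V₀` (a neighbourhood of `y₀` in `D`).  If `y, y' ∈ W`,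
`y = τ n m h`, `y' = τ n' m' h'` with `χ m h ≠ 0`, `χ m' h' ≠ 0`: `y = x * v * d s`, `y' = x * v' * d s'` with `v, v' ∈ V`, `x⁻¹ * y' * y⁻¹ * x = (x⁻¹ y' y₀⁻¹ x) (x⁻¹ y y₀⁻¹ x)⁻¹ ∈ V₀ V₀⁻¹ ⊆ V` and it is `v' * d s' * (d s)⁻¹ * v⁻¹`, so
`d s' * (d s)⁻¹ ∈ V V V`: `s = s'`, `(n, m) = (n', m')`: at most one landing set meets `W`. -/
def OneStmt : Prop := ∀ (H : Type) [Group H] [TopologicalSpace H] [IsTopologicalGroup H]
  [TopologicalSpace.MetrizableSpace H] (V V₀ : Set H) (d l : ℕ → H) (L : Subgroup H) (D Z : Set H)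
  (ξ : H → H), IsOpen V → (1 : H) ∈ V → (∀ x ∈ V, x⁻¹ ∈ V) → IsOpen V₀ → (1 : H) ∈ V₀ →
  (∀ x ∈ V₀, x⁻¹ ∈ V₀) → (∀ x ∈ V₀, ∀ y ∈ V₀, x * y ∈ V) →
  (∀ s r, s ≠ r → d s * (d r)⁻¹ ∉ V * V * V * V) → (∀ s, d s ∈ L) → (∀ j, l j ∈ L) →
  (∀ z ∈ L, ∀ W ∈ nhds (1 : H), ∃ j, z * (l j)⁻¹ ∈ W) →
  (∀ x z, z ∈ L → ((x * z ∈ D ↔ x ∈ D) ∧ (x * z ∈ Z ↔ x ∈ Z) ∧ ξ (x * z) = ξ x)) →
  (∀ x ∈ D, ∃ w ∈ V₀, ∃ z ∈ L, x = ξ x * w * z) →
  (∀ x ∈ D, ∀ᶠ y in nhds x, y ∈ D → ξ y = ξ x) →
  Compl (ℕ → ↥(Rv D {x : D | x.1 ∈ Z})) ↥(Rv D {x : D | x.1 ∈ Z})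

/-- **PRD** (easy).  Products of complemented embeddings.
PROOF. `i n : (ℕ → E n) →L E n`, `p n`; `i F n = i n (fun k => F k n)`, `p g k n = p n (g n) k` (`ContinuousLinearMap.pi`, `ContinuousLinearMap.proj`). -/
def PrdStmt : Prop := ∀ (E : ℕ → Type) [∀ n, AddCommGroup (E n)] [∀ n, Module ℝ (E n)]
  [∀ n, TopologicalSpace (E n)], (∀ n, Compl (ℕ → E n) (E n)) → Compl (ℕ → (∀ n, E n)) (∀ n, E n)

/-- **ST8** (easy; uses PEL, CEX, CPE, BRI).  From the complemented power to stability.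
PROOF. This is the proof of `ab2` in Helper30_LSG/AB2.lean with `X` for `Additive H` (`compl_zero`, `H34.curryE`, `H21.homN`; `homN` is stated for a space). -/
def St8Stmt : Prop := ∀ (X : Type) [TopologicalSpace X],
  Compl (ℕ → ↥(Cp X)) ↥(Cp X) → LEq X (X × ℕ) ∧ LStable X

/-- **CPW** (medium; uses DSQ, LSE, SCN, ONE, DEC, PRD).  Groups which are not precompact.
PROOF. `V`, `d` from DSQ; `V₀` an open symmetric neighbourhood of 1 with `V₀ V₀ ⊆ V`; `L`, `l` from LSE; `D`, `ξ` from SCN.  For every `n` ONE with `D n`, `Z = {x | ∃ m < n, x ∈ D m}`, `ξ n`: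
`Compl (ℕ → E n) (E n)` for `E n = Rv (D n) (Ear D n)` (`Ear D n = {x : D n | x.1 ∈ Z}` by definition).  PRD: `Compl (ℕ → P) P`, `P = ∀ n, E n`.  DEC: `Cp H ≃L P`; transport. -/
def CpwStmt : Prop := ∀ (H : Type) [Group H] [TopologicalSpace H] [IsTopologicalGroup H]
  [TopologicalSpace.MetrizableSpace H],
  (∃ U ∈ nhds (1 : H), ∀ F : Finset H, (⋃ g ∈ F, g • U) ≠ Set.univ) →
  Compl (ℕ → ↥(Cp H)) ↥(Cp H)

/-- **FLO** (medium-strong; copy of `loc` in Helper7_LSG/TVF.lean).  The local functional for a group with a closed line.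
PROOF. `γ` is a closed embedding, so there is a neighbourhood `N` of 1 with `γ s ∈ N → |s| < 1`; `U` an open symmetric neighbourhood of 1 with `U U U U ⊆ N`; `f : H → ℝ` continuous, `0 ≤ f`, `f 1 = 1`, `f = 0` off `U`.
`P h = ∫ s, f (h * γ (-s))`, `Q h = ∫ s, s * f (h * γ (-s))`.  Let `h₀ ∈ H`, `h, h₁` with `h * h₀⁻¹, h₁ * h₀⁻¹ ∈ U`, and `u = h * γ (-s) ∈ U`, `u₁ = h₁ * γ (-s₁) ∈ U`: `γ (s₁ - s) = u₁⁻¹ * (h₁ * h⁻¹) * u`
`= u₁⁻¹ * (h₁ h₀⁻¹) * (h h₀⁻¹)⁻¹ * u ∈ U U U U`, so `|s₁ - s| < 1`: near `h₀` all integrands vanish outside one compact interval, `P`, `Q` are continuous (`continuousOn_integral_of_compact_support`).  `P (h * γ t) = P h` and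
`Q (h * γ t) = Q h + t * P h` by translation, `P 1 > 0`. -/
def FloStmt : Prop := ∀ (H : Type) [Group H] [TopologicalSpace H] [IsTopologicalGroup H]
  [TopologicalSpace.MetrizableSpace H] (γ : ℝ → H), Topology.IsClosedEmbedding γ →
  (∀ s t, γ (s + t) = γ s * γ t) →
  ∃ P Q : H → ℝ, Continuous P ∧ Continuous Q ∧ 0 < P 1 ∧
    (∀ (h : H) (t : ℝ), P (h * γ t) = P h) ∧ ∀ (h : H) (t : ℝ), Q (h * γ t) = Q h + t * P h

/-- **FGL** (medium; uses QML, FLO; copy of `tvf` in Helper7_LSG/TVF.lean).  The global functional.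
PROOF. `L = range γ` is a closed subgroup, `H ⧸ L` is metrizable (QML), `π : H → H ⧸ L` is open.  `O w = {h | 0 < P (w⁻¹ * h)}` is open, invariant under `L` on the right, `w ∈ O w`; a partition of unity `ρ_w`, `w ∈ H`, of
`H ⧸ L` subordinate to `π '' O w`; `F h = ∑ᶠ w, ρ_w (π h) * (Q (w⁻¹ * h) / P (w⁻¹ * h))`; `F (h * γ t) = F h + t * ∑ ρ_w = F h + t`. -/
def FglStmt : Prop := ∀ (H : Type) [Group H] [TopologicalSpace H] [IsTopologicalGroup H]
  [TopologicalSpace.MetrizableSpace H] (γ : ℝ → H), Topology.IsClosedEmbedding γ →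
  (∀ s t, γ (s + t) = γ s * γ t) →
  ∃ F : H → ℝ, Continuous F ∧ ∀ (h : H) (t : ℝ), F (h * γ t) = F h + t

/-- **LGR** (easy; uses RXS, FGL, CPE, BRI; copy of `tvs` in Helper62_LSG/TVS.lean).  OUTPUT B: groups with a closed line.
PROOF. `F` from FGL, `X = {h // F h = 0}`: `H` is homeomorphic to `X × ℝ` by `h ↦ (h * γ (-F h), F h)`, inverse `(y, t) ↦ y * γ t`.  RXS for `X × ℝ`; `lstable`, `sstable` of Helper62_LSG/TVS.lean. -/
def LgrStmt : Prop := ∀ (H : Type) [Group H] [TopologicalSpace H] [IsTopologicalGroup H]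
  [TopologicalSpace.MetrizableSpace H] (γ : ℝ → H), Topology.IsClosedEmbedding γ →
  (∀ s t, γ (s + t) = γ s * γ t) → LStable H ∧ SStable H

end Pool.Agent.NPG
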