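import Pool.Agent.LSG.StmtsE

/-!
# Squad NPY (MP_005a41_gt), theorem D: convex subsets of the plane which are not linearly stable

THEOREM D.  `G` = the dense subgroup of the Cantor group `K = ℕ → ZMod 2` of the landed hand-in HaarClassification (`Big G`).  Let `Z` be a metrizable space
which contains `G` as a closed subspace with σ-compact complement.  Then there is no continuous linear map of `C_p(Z)` onto `C_p(G × {0, 1})`, hence none onto
`C_p(Z ⊕ Z)`; `Z` is neither l-stable nor S-stable.  Example: the open unit disc together with a copy of `G` in the circle, a bounded CONVEX subset of the plane.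

Rows used from the landed squad LSG (theorems, as hypotheses of the type of the statement): MUK SUP TRC OUT RPV CON DEN (Stmts), DUG BRI GNT (StmtsA).

RULES.  One file per row: `Pool/Agent/HelperNN_NPY/XXX.lean`, import `Pool.Agent.NPG.StmtsD`, namespace `Pool.Agent.NPY.HNN`, theorem
`xxx (the rows used, as hypotheses, in the order of the docstring) : XxxStmt`.
-/

set_option autoImplicit false

open MeasureTheory Set Topology

namespace Pool.Agent.NPY

open Pool.Agent.LSG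

/-- there is a continuous linear map of `C_p(X)` onto `C_p(Y)` -/
def Sur (X Y : Type) [TopologicalSpace X] [TopologicalSpace Y] : Prop :=
  ∃ T : C(X, ℝ) →ₗ[ℝ] C(Y, ℝ), PCont (fun f => T f) ∧ Function.Surjective T

/-- disjoint clopen subsets of `K` which cover `G` and are invariant under `H` -/
structure Rings (G H : AddSubgroup K) (R : ℕ → Set K) : Prop where
  clopen : ∀ n, IsClopen (R n)
  disj : ∀ n m, n ≠ m → Disjoint (R n) (R m)
  cover : ∀ x ∈ G, ∃ n, x ∈ R n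
  inv : ∀ n, ∀ x ∈ R n, ∀ h ∈ H, x + h ∈ R n

/-- **XHP** (medium; uses SUP, TRC, OUT; copy of EXH, Helper87_LSG/EXH.lean).  Exhaustion by finite subgroups and by closed sets.
PROOF. As EXH.  Let `S`, `N`, `s`, `H_n` be as there.  `L n i` = the set of all `x` with `∃ hx hB, ⟨((x, hx), i), hB⟩ ∈ P n ∧ ∀ a, c ⟨((x, hx), i), hB⟩ a ≠ 0 → a.1.1 ∈ H_n ∨ a.1.1 - x ∈ H_n`: increasing in `n`, and every
`x ∈ sl B i` outside `N` is in some `L n i` (the support is finite, `P` is monotone).  So there is `n` with `dm A < ∑ i, mu (L n i)`.  `j = n`, `H = H_n`; `A'` from TRC; `E'` from SUP for `H_n`; `U i` from TRC for the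
open set `Subtype.val '' (P n)ᶜ` (open in `G × Fin k` because `B` is open); `E i = E' i \ U i`.  The trace of `E i` on `G` is `L n i`, so `mu (E i) = mu (L n i)` by OUT. -/
def XhpStmt : Prop := ∀ (G : AddSubgroup K), Big G → ∀ (k : ℕ) (A B : Set (G × Fin k)),
  IsClopen A → IsClopen B → dm A < dm B →
  ∀ (T : C(A, ℝ) →ₗ[ℝ] C(B, ℝ)) (c : B → A →₀ ℝ), Rep T c →
  ∀ P : ℕ → Set B, (∀ j, IsClosed (P j)) → Monotone P → (∀ b, ∃ j, b ∈ P j) →
  ∃ (j : ℕ) (H : AddSubgroup K) (A' E : Fin k → Set K), (H : Set K).Finite ∧ H ≤ G ∧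
    (∀ i, MeasurableSet (A' i)) ∧ (∀ i, MeasurableSet (E i)) ∧
    (∀ (i : Fin k) (x : K) (hx : x ∈ G), x ∈ A' i ↔ ((⟨x, hx⟩ : G), i) ∈ A) ∧
    (∀ (i : Fin k) (x : K) (hx : x ∈ G), x ∈ E i → ∃ hB : ((⟨x, hx⟩ : G), i) ∈ B,
      (⟨_, hB⟩ : B) ∈ P j ∧
      ∀ a : A, c ⟨_, hB⟩ a ≠ 0 → (a.1.1 : K) ∈ H ∨ (a.1.1 : K) - x ∈ H) ∧
    ∑ i, mu (A' i) < ∑ i, mu (E i)

/-- **CTZ** (easy; uses MUK).  Cosets with more points of `B` than of `A`.
PROOF. This is the first half of `ctl` in Helper19_LSG/CTL.lean (the set `Z` there: `hZm`, `hZ0`, `hZc`). -/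
def CtzStmt : Prop := ∀ H : AddSubgroup K, (H : Set K).Finite →
  ∀ (k : ℕ) (A B : Fin k → Set K), (∀ i, MeasurableSet (A i)) → (∀ i, MeasurableSet (B i)) →
  ∑ i, mu (A i) < ∑ i, mu (B i) → ∃ W : Set K, MeasurableSet W ∧ 0 < mu W ∧
    ∀ x ∈ W, ∑ i, Set.ncard {h : K | h ∈ H ∧ x + h ∈ A i}
      < ∑ i, Set.ncard {h : K | h ∈ H ∧ x + h ∈ B i}

/-- **PIC** (easy; uses MUK).  Points in different cosets.
PROOF. This is the second half of `ctl` in Helper19_LSG/CTL.lean (induction on `M`): finite sets are null (MUK), so `W` minus the finitely many cosets `x + H` of the points `x` found so far has positive measure, and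
`Big.full` gives the next point. -/
def PicStmt : Prop := ∀ G : AddSubgroup K, Big G → ∀ H : AddSubgroup K, (H : Set K).Finite →
  ∀ W : Set K, MeasurableSet W → 0 < mu W → ∀ M : ℕ, ∃ X : Finset K,
    (∀ x ∈ X, x ∈ G ∧ x ∈ W) ∧ X.card = M ∧ ∀ x ∈ X, ∀ y ∈ X, x - y ∈ H → x = y

/-- **RNG** (medium-strong; uses MUK, GNT).  Rings around a coset outside `G`.
PROOF. (1) There is `p ∉ G` with `0 < mu (W ∩ cyl n p)` for all `n`, `cyl n p = {x | ∀ i < n, x i = p i}`.  Suppose not.  The union `V` of all cylinders `C` with `mu (W ∩ C) = 0` is a countable union (a cylinder of depth `n` is determined by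
`Fin n → ZMod 2`), so `mu (W ∩ V) = 0` and `0 < mu (W \ V)`; and `x ∉ G` implies `x ∈ V`, so `W \ V ⊆ G`.  By GNT there is `p₀ ∉ G`.  The set `{x | p₀ + x ∈ W \ V}` is measurable and has the same measure (MUK), so `Big.full` gives `g ∈ G`
with `p₀ + g ∈ W \ V ⊆ G`, so `p₀ ∈ G`: contradiction.
(2) `C n = {x | ∃ h ∈ H, ∀ i < n, x i = (p + h) i}`: a finite union of cylinders, clopen, decreasing, `C 0 = univ`, `C n + H = C n`; `x ∈ ⋂ n, C n` implies `x - p ∈ H` (`H` is finite: one `h` works for infinitely many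
`n`, so for all `n`), and `x ∈ G` would give `p ∈ G` (`H ≤ G`).  `R n = C n \ C (n + 1)`: disjoint, clopen, invariant, and every `x ∈ G` is in some `R n` (the least `n` with `x ∉ C (n + 1)`).
(3) Let `N` be given and suppose `mu (W ∩ R n) = 0` for all `n ≥ N`.  `W ∩ C N` is contained in the union of the `W ∩ R n`, `n ≥ N`, and of the finite set `⋂ n, C n ⊆ p + H`, which is null (MUK): so `mu (W ∩ C N) = 0`, but
`cyl N p ⊆ C N`: contradiction to (1). -/
def RngStmt : Prop := ∀ G : AddSubgroup K, Big G → ∀ H : AddSubgroup K, (H : Set K).Finite →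
  H ≤ G → ∀ W : Set K, MeasurableSet W → 0 < mu W →
  ∃ R : ℕ → Set K, Rings G H R ∧ ∀ N, ∃ n ≥ N, 0 < mu (W ∩ R n)

/-- **DPV** (medium; no hypotheses; copy of MAI, Helper26_LSG/MAI.lean).  A linear dependence in a block.
PROOF. As MAI: `f q` (`q = (x, h, i)` with `x + h ∈ E i`) are the points `b ∈ B` with first coordinate `x + h`; `S` = the finite set of the `a` in `H` or in `X + H`, `#S < #{q}` by `card_triples` and the counting at the end of MAI.  The supports of the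
`c (f q)` are in `S`.  If the `c (f q)` were linearly independent we would have a contradiction as there; so there is `w` with `∑ q, w q • c (f q) = 0` and some `w q ≠ 0` (`Fintype.not_linearIndependent_iff`), and
`u = ∑ q, Finsupp.single (f q) (w q)` (`f` is injective: `u (f q) = w q`; or `Finsupp.mapDomain f`).  `b.1.1 - x = h ∈ H`. -/
def DpvStmt : Prop := ∀ (G H : AddSubgroup K), (H : Set K).Finite → H ≤ G →
  ∀ (k : ℕ) (A B : Set (G × Fin k)) (c : B → A →₀ ℝ) (A' E : Fin k → Set K) (P : Set B),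
  (∀ (i : Fin k) (x : K) (hx : x ∈ G), x ∈ A' i ↔ ((⟨x, hx⟩ : G), i) ∈ A) →
  (∀ (i : Fin k) (x : K) (hx : x ∈ G), x ∈ E i → ∃ hB : ((⟨x, hx⟩ : G), i) ∈ B,
      (⟨_, hB⟩ : B) ∈ P ∧
      ∀ a : A, c ⟨_, hB⟩ a ≠ 0 → (a.1.1 : K) ∈ H ∨ (a.1.1 : K) - x ∈ H) →
  ∀ X : Finset K, (∀ x ∈ X, x ∈ G) → X.card = k * (H : Set K).ncard + 1 →
  (∀ x ∈ X, ∀ y ∈ X, x - y ∈ H → x = y) →
  (∀ x ∈ X, ∑ i, Set.ncard {h : K | h ∈ H ∧ x + h ∈ A' i}
      < ∑ i, Set.ncard {h : K | h ∈ H ∧ x + h ∈ E i}) →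
  ∃ u : B →₀ ℝ, u ≠ 0 ∧ (∀ b, u b ≠ 0 → b ∈ P ∧ ∃ x ∈ X, (b.1.1 : K) - x ∈ H) ∧
    ∀ a : A, (u.sum fun b t => t * c b a) = 0

/-- **FUN** (medium; no hypotheses).  An unbounded function.
PROOF. For `n ∈ I` there is `g n : C(B, ℝ)` with `g n b = n * sign (u n b)` for `b` in the (finite) support of `u n` (`B` is metrizable, the support is finite, so closed and discrete: Tietze, `ContinuousMap.exists_restrict_eq`; for `n ∉ I` put
`g n = 0`).  `g b = g n b` if `b.1.1 ∈ R n` (`n` unique: `cover`, `disj`): near `b` the points have their first coordinate in the open set `R n`, so `g` is continuous (`continuous_iff_continuousAt`, `ContinuousAt.congr`).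
`∑ u n b * g b = ∑ u n b * (n * sign (u n b)) = n * ∑ |u n b|`. -/
def FunStmt : Prop := ∀ (G H : AddSubgroup K) (R : ℕ → Set K), Rings G H R →
  ∀ (k : ℕ) (B : Set (G × Fin k)) (I : Set ℕ) (u : ℕ → (B →₀ ℝ)),
  (∀ n ∈ I, ∀ b, u n b ≠ 0 → (b.1.1 : K) ∈ R n) →
  ∃ g : C(B, ℝ), ∀ n ∈ I, ((u n).sum fun b t => t * g b) = n * ((u n).sum fun _ t => |t|)

/-- **BOU** (easy-medium; no hypotheses).  The closed sets of bounded functionals.
PROOF. `P j = {y | ∀ f, (∀ z ∈ F, f z = 0) → ∀ r ≥ 0, (∀ z ∈ D j, |f z| ≤ r) → |T f y| ≤ j * r}`: an intersection of closed sets.  Monotone: `D` is monotone and `j * r ≤ j' * r`.  Let `y` be given: the finitely many support points of `c y` outside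
`F` are in `D j` for large `j`, and `|T f y| ≤ ∑ |c y z| * r ≤ j * r` for `j ≥ ∑ |c y z|` (`Rep`; the support points in `F` contribute 0). -/
def BouStmt : Prop := ∀ (Z Y : Type) [TopologicalSpace Z] [TopologicalSpace Y]
  (T : C(Z, ℝ) →ₗ[ℝ] C(Y, ℝ)) (c : Y → Z →₀ ℝ), Rep T c →
  ∀ (F : Set Z) (D : ℕ → Set Z), Monotone D → (∀ z, z ∈ F ∨ ∃ j, z ∈ D j) →
  ∃ P : ℕ → Set Y, (∀ j, IsClosed (P j)) ∧ Monotone P ∧ (∀ y, ∃ j, y ∈ P j) ∧
    ∀ j, ∀ y ∈ P j, ∀ f : C(Z, ℝ), (∀ z ∈ F, f z = 0) → ∀ r : ℝ, 0 ≤ r →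
      (∀ z ∈ D j, |f z| ≤ r) → |T f y| ≤ j * r

/-- **EXT** (easy-medium; uses DUG, BRI).  The extension operator of a closed embedding.
PROOF. DUG for `range ι` and BRI (2): `φ : C(range ι, ℝ) →ₗ C(Z, ℝ)`; `ι : A ≃ₜ range ι` (`Topology.IsEmbedding.toHomeomorph`), `e f = φ (f ∘ ι⁻¹)`; every value of `e f` depends continuously on `f` (`PCont` of `φ` composed with
`f ↦ f ∘ ι⁻¹`, which is continuous for the pointwise topologies). -/
def ExtStmt : Prop := ∀ (A Z : Type) [TopologicalSpace A] [TopologicalSpace Z]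
  [TopologicalSpace.MetrizableSpace Z] (ι : A → Z), Topology.IsClosedEmbedding ι →
  ∃ e : C(A, ℝ) →ₗ[ℝ] C(Z, ℝ), PCont (fun f => e f) ∧ ∀ (f : C(A, ℝ)) (a : A), e f (ι a) = f a

/-- **MLE** (medium-strong; uses RPV, EXT, BOU, XHP, CTZ, RNG, PIC, DPV, FUN).  THE MAIN LEMMA.
PROOF. Let `T` be continuous, linear and onto, `c` its coefficients (RPV).  `e` from EXT, `T' = T ∘ e : C(A) → C(B)`, `PCont`, coefficients `c'` (RPV).  BOU for `F = range ι`, `D`: `P`.  XHP for `T'`, `c'`, `P`: `j`, `H`, `A'`, `E`.  CTZ for `A'`, `E`: `W`.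
RNG: `R`; `I = {n | 0 < mu (W ∩ R n)}` is infinite.  For `n ∈ I`: PIC for `W ∩ R n` with `M = k * #H + 1` gives `X n`, DPV (with `P j`) gives `u n ≠ 0` with support in `P j`, every `b` in the support has `b.1.1 = x + h`, `x ∈ X n ⊆ R n`, `h ∈ H`, so
`b.1.1 ∈ R n`; and `∑ b, u n b * c' b a = 0` for all `a`.  FUN: `g`.  `g = T f`.  Let `f₁ = e (f ∘ ι)`, `f₂ = f - f₁`, `f₂ = 0` on `range ι`; `|f₂| ≤ r` on the compact set `D j`, `r ≥ 0`.  For `n ∈ I`:
`∑ b, u n b * T f₁ b = ∑ b, u n b * ∑ a, c' b a * f (ι a) = ∑ a, f (ι a) * ∑ b, u n b * c' b a = 0` (`T f₁ = T' (f ∘ ι)`), so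
`n * ∑ |u n b| = ∑ u n b * g b = ∑ u n b * T f₂ b ≤ ∑ |u n b| * (j * r)` (BOU), and `∑ |u n b| > 0`: `n ≤ j * r` for all `n ∈ I`, a contradiction. -/
def MleStmt : Prop := ∀ (G : AddSubgroup K), Big G → ∀ (k : ℕ) (A B : Set (G × Fin k)),
  IsClopen A → IsClopen B → dm A < dm B → ∀ (Z : Type) [TopologicalSpace Z]
  [TopologicalSpace.MetrizableSpace Z] (ι : A → Z), Topology.IsClosedEmbedding ι →
  ∀ D : ℕ → Set Z, (∀ j, IsCompact (D j)) → Monotone D →
  (∀ z, z ∈ range ι ∨ ∃ j, z ∈ D j) → ¬ Sur Z B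

/-- **CIR** (medium; no hypotheses).  The Cantor group in the circle.
PROOF. The sphere `{v | ‖v‖ = 1}` of `EuclideanSpace ℝ (Fin 2)` is closed and not countable (it contains the injective image `t ↦ (cos t, sin t)` or `t ↦ (t, sqrt (1 - t ^ 2))` of `[0, 1]`, which is not countable).
`IsClosed.exists_nat_bool_injection_of_not_countable` gives a continuous injective `(ℕ → Bool) → ` sphere; compose with the homeomorphism `(ℕ → ZMod 2) → (ℕ → Bool)`, `x ↦ fun n => decide (x n = 1)` (continuous: the coordinates are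
functions on a discrete space). -/
def CirStmt : Prop := ∃ κ : K → EuclideanSpace ℝ (Fin 2), Continuous κ ∧
  Function.Injective κ ∧ ∀ x, ‖κ x‖ = 1

/-- **DSC** (easy-medium; no hypotheses).  The convex set.
PROOF. Convex: for `x ≠ y` in the closed unit ball the open segment is in the interior of the closed ball (`strictConvex_closedBall`, `interior_closedBall`), which is the open ball; `x = y` is trivial.  `D j = {z | ‖z.1‖ ≤ 1 - 1 / (j + 1)}`: compact, because the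
closed ball is compact and contained in the open unit ball, so in the set (`Topology.IsInducing.subtypeVal.isCompact_iff`). -/
def DscStmt : Prop := ∀ S : Set (EuclideanSpace ℝ (Fin 2)), (∀ v ∈ S, ‖v‖ = 1) →
  Convex ℝ (Metric.ball (0 : EuclideanSpace ℝ (Fin 2)) 1 ∪ S) ∧
  ∃ D : ℕ → Set ↥(Metric.ball (0 : EuclideanSpace ℝ (Fin 2)) 1 ∪ S),
    (∀ j, IsCompact (D j)) ∧ Monotone D ∧ ∀ z, z.1 ∈ S ∨ ∃ j, z ∈ D j

/-- **EMB** (easy-medium; no hypotheses).  The copy of `G` is closed in the convex set.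
PROOF. `ι x = ⟨κ x, _⟩`.  `κ` is a closed embedding of the compact space `K`, so `x ↦ κ x` is an embedding of `G` and so is `ι` (`Topology.IsEmbedding.codRestrict`-like).  Its range is the set of the `z` with `‖z.1‖ = 1` (closed): the points of the open
ball have norm `< 1`. -/
def EmbStmt : Prop := ∀ (G : AddSubgroup K) (κ : K → EuclideanSpace ℝ (Fin 2)), Continuous κ →
  Function.Injective κ → (∀ x, ‖κ x‖ = 1) →
  ∃ ι : G → ↥(Metric.ball (0 : EuclideanSpace ℝ (Fin 2)) 1 ∪ κ '' (G : Set K)),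
    Topology.IsClosedEmbedding ι ∧ ∀ x : G, (ι x).1 = κ x

/-- **ZZS** (easy-medium; no hypotheses).  Stability gives a surjection.
PROOF. (1) `A = univ` is l-embedded (compose with the homeomorphism `univ ≃ Z`), so `LEq Z (Z ⊕ univ)`; compose with the homeomorphism `Z ⊕ univ ≃ Z ⊕ Z`.  (2) clear.  (3) `T : C(Z × OnePoint ℕ) ≃ C(Z)`; compose `T.symm` with
`h ↦ (inl z ↦ h (z, 0), inr z ↦ h (z, 1))`, which is linear, `PCont` and onto: `g` is the image of `h (z, n) = g (inl z)` if `n = 0`, `g (inr z)` if `n ≠ 0` (continuous: `{0}` is clopen in `OnePoint ℕ`; see SZD, where a similar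
function is built). -/
def ZzsStmt : Prop := ∀ (Z : Type) [TopologicalSpace Z],
  (LStable Z → LEq Z (Z ⊕ Z)) ∧ (LEq Z (Z ⊕ Z) → Sur Z (Z ⊕ Z)) ∧ (SStable Z → Sur Z (Z ⊕ Z))

/-- **RST** (easy-medium; no hypotheses).  Restriction to the copy of `G × Fin 2`.
PROOF. `q : ↥univ → Z ⊕ Z`, `(x, 0) ↦ inl (ι x)`, `(x, 1) ↦ inr (ι x)` is a closed embedding into a normal space.  `T' f = (T f) ∘ q`: linear, `PCont`, onto by Tietze's theorem (`ContinuousMap.exists_extension`) and the surjectivity of `T`. -/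
def RstStmt : Prop := ∀ (G : AddSubgroup K) (Z : Type) [TopologicalSpace Z]
  [TopologicalSpace.MetrizableSpace Z] (ι : G → Z), Topology.IsClosedEmbedding ι →
  Sur Z (Z ⊕ Z) → Sur Z ↥(univ : Set (G × Fin 2))

/-- **DM2** (easy; uses MUK, OUT).  Measures.
PROOF. The slices of `{p | p.2 = 0}` are `G` and the empty set, those of `univ` are `G` and `G`; `mu G = mu univ = 1` by OUT for `E = univ`.  `{p | p.2 = 0}` is homeomorphic to `G`: `x ↦ ⟨(x, 0), rfl⟩`. -/
def Dm2Stmt : Prop := ∀ G : AddSubgroup K, Big G →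
  IsClopen {p : G × Fin 2 | p.2 = 0} ∧
  dm {p : G × Fin 2 | p.2 = 0} < dm (univ : Set (G × Fin 2)) ∧
  Nonempty (↥{p : G × Fin 2 | p.2 = 0} ≃ₜ G)

/-- **GEN** (easy-medium; uses MLE, ZZS, RST, DM2).  The general theorem.
PROOF. `A = {p | p.2 = 0}` is homeomorphic to `G`; compose with `ι`.  MLE with `B = univ`: not `Sur Z univ`; so by RST not `Sur Z (Z ⊕ Z)`, and ZZS.  (`univ ≃ₜ G × Fin 2` for the first clause: `Homeomorph.Set.univ`.) -/
def GenStmt : Prop := ∀ (G : AddSubgroup K), Big G → ∀ (Z : Type) [TopologicalSpace Z]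
  [TopologicalSpace.MetrizableSpace Z] (ι : G → Z), Topology.IsClosedEmbedding ι →
  ∀ D : ℕ → Set Z, (∀ j, IsCompact (D j)) → Monotone D →
  (∀ z, z ∈ range ι ∨ ∃ j, z ∈ D j) →
  ¬ Sur Z (G × Fin 2) ∧ ¬ Sur Z (Z ⊕ Z) ∧ ¬ LEq Z (Z ⊕ Z) ∧ ¬ LStable Z ∧ ¬ SStable Z

/-- **FDD** (assembly, helper26; uses CON, DEN, GEN, CIR, DSC, EMB).  THEOREM D. -/
def FddStmt : Prop := ∃ G : AddSubgroup K, Dense (G : Set K) ∧
  (∀ (Z : Type) [TopologicalSpace Z] [TopologicalSpace.MetrizableSpace Z] (ι : G → Z),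
    Topology.IsClosedEmbedding ι → (∃ D : ℕ → Set Z, (∀ j, IsCompact (D j)) ∧
      ∀ z, z ∈ range ι ∨ ∃ j, z ∈ D j) →
    ¬ Sur Z (G × Fin 2) ∧ ¬ Sur Z (Z ⊕ Z) ∧ ¬ LEq Z (Z ⊕ Z) ∧ ¬ LStable Z ∧ ¬ SStable Z) ∧
  ∃ Z : Set (EuclideanSpace ℝ (Fin 2)), Convex ℝ Z ∧
    Metric.ball (0 : EuclideanSpace ℝ (Fin 2)) 1 ⊆ Z ∧
    Z ⊆ Metric.closedBall (0 : EuclideanSpace ℝ (Fin 2)) 1 ∧
    ¬ Sur Z (Z ⊕ Z) ∧ ¬ LEq Z (Z ⊕ Z) ∧ ¬ LStable Z ∧ ¬ SStable Z

end Pool.Agent.NPY
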